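import Pool.Agent.H477.S.Stm8

/-!
# Task N2 S_CRX (helper571 for helper477): crude local bound of `Ξ`
-/

set_option autoImplicit false

namespace Pool.Agent.H571.N

open Complex
open Pool.Agent.Helper242.KK (FT Ph)
open Pool.Agent.H477.Jen

theorem low {Xi Z : ℂ → ℂ} {H : ℝ → ℂ} {lam : ℝ → ℂ} {C κ : ℝ} {B : ℕ}
    (h : Loc Xi Z H lam C κ B) {t : ℝ} (ht1 : C + 1 ≤ t) (ht9 : 9 ≤ t) (ht16 : 16 * C ≤ t)
    (htD : 3 * C + Real.log (2 * C * 2 ^ B) ≤ Real.log t) {w : ℂ} (h1 : |w.re - t| ≤ 1)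
    (h2 : |w.im| ≤ 2) (h3 : w.im ≤ 0) :
    ‖Xi w‖ ≤ ‖H t‖ * Real.exp ((2 * κ + B + 1) * Real.log t) := by
  have hC := h.C1
  have ht0 : 0 < t := by linarith
  have hlog : 0 ≤ Real.log t := Real.log_nonneg (by linarith)
  obtain ⟨v, hv⟩ : ∃ v : ℂ, v = w - t := ⟨_, rfl⟩
  have hvre : v.re = w.re - t := by
    rw [hv, sub_re, ofReal_re]
  have hvim : v.im = w.im := by
    rw [hv, sub_im, ofReal_im, sub_zero]
  have hvn : ‖v‖ ≤ 3 := by
    have h4 := Complex.norm_le_abs_re_add_abs_im v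
    rw [hvre, hvim] at h4
    linarith
  have hw : (t : ℂ) + v = w := by
    rw [hv]
    ring
  have hv2 : ‖v‖ ^ 2 ≤ 3 ^ 2 := pow_le_pow_left₀ (norm_nonneg v) hvn 2
  obtain ⟨θ, hθ, hX⟩ := h.fact t (by linarith) v (by rw [hvim]; exact h3) (by linarith)
  rw [hw] at hX
  have h4 : ‖1 + θ‖ ≤ 2 := by
    have h5 : C * (1 + ‖v‖) ^ 2 / t ≤ 1 := by
      rw [div_le_one ht0]
      have h6 : (1 + ‖v‖) ^ 2 ≤ 4 ^ 2 :=
        pow_le_pow_left₀ (by positivity) (by linarith) 2
      have h7 : C * (1 + ‖v‖) ^ 2 ≤ C * 4 ^ 2 := mul_le_mul_of_nonneg_left h6 (by linarith)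
      linarith
    have h6 := norm_add_le (1 : ℂ) θ
    rw [norm_one] at h6
    linarith
  have h5 : (I * lam t * v).re ≤ 2 * κ * Real.log t + 3 * C := by
    have e : (I * lam t * v).re = (lam t).re * (-v.im) + -((lam t).im * v.re) := by
      rw [mul_re, mul_re, mul_im, I_re, I_im]
      ring
    have h6 := (abs_le.1 (h.lre t (by linarith))).2
    have h7 : (lam t).re * (-v.im) ≤ (κ * Real.log t + C) * (-v.im) :=
      mul_le_mul_of_nonneg_right (by linarith) (by linarith)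
    have h8 : (κ * Real.log t + C) * (-v.im) ≤ (κ * Real.log t + C) * 2 := by
      apply mul_le_mul_of_nonneg_left
      · have := (abs_le.1 h2).1
        linarith
      · have := mul_nonneg h.κpos.le hlog
        linarith
    have h9 : -((lam t).im * v.re) ≤ C * 1 := by
      have h10 : |(lam t).im * v.re| ≤ C * 1 := by
        rw [abs_mul]
        refine mul_le_mul (h.lim t (by linarith)) ?_ (abs_nonneg _) (by linarith)
        rw [hvre]
        exact h1
      exact (neg_le_abs _).trans h10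
    rw [e]
    linarith
  have h6 : ‖Z w‖ ≤ C * (2 * t) ^ B := by
    refine (h.crude w ?_ h3).trans ?_
    · have := (abs_le.1 h1).1
      linarith
    · apply mul_le_mul_of_nonneg_left _ (by linarith)
      apply pow_le_pow_left₀ (norm_nonneg w)
      rw [← hw]
      have h7 := norm_add_le (t : ℂ) v
      rw [Complex.norm_real, Real.norm_of_nonneg ht0.le] at h7
      linarith
  have h7 : Real.exp (2 * κ * Real.log t + 3 * C) * 2 * (C * (2 * t) ^ B) ≤
      Real.exp ((2 * κ + B + 1) * Real.log t) := by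
    have h8 : (2 : ℝ) * (C * (2 * t) ^ B) = Real.exp (Real.log (2 * C * 2 ^ B) + B * Real.log t) := by
      rw [Real.exp_add, Real.exp_log (by positivity), Real.exp_nat_mul, Real.exp_log ht0, mul_pow]
      ring
    rw [mul_assoc, h8, ← Real.exp_add]
    apply Real.exp_le_exp.2
    linarith
  have h8 : ‖Xi w‖ = ‖H t‖ * (Real.exp (I * lam t * v).re * ‖1 + θ‖ * ‖Z w‖) := by
    rw [hX, norm_mul, norm_mul, norm_mul, Complex.norm_exp]
    ring
  rw [h8]
  apply mul_le_mul_of_nonneg_left _ (norm_nonneg _)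
  refine le_trans ?_ h7
  exact mul_le_mul (mul_le_mul (Real.exp_le_exp.2 h5) h4 (norm_nonneg _) (Real.exp_pos _).le) h6
    (norm_nonneg _) (by positivity)

theorem crx {Xi Z : ℂ → ℂ} {H : ℝ → ℂ} {lam : ℝ → ℂ} {C κ : ℝ} {B : ℕ}
    (h : Loc Xi Z H lam C κ B) : ∃ C1 T0 : ℝ, 0 < C1 ∧ ∀ t : ℝ, T0 ≤ t → ∀ w : ℂ,
    |w.re - t| ≤ 1 → |w.im| ≤ 2 → ‖Xi w‖ ≤ ‖H t‖ * Real.exp (C1 * Real.log t) := by
  have hC := h.C1
  have hκ := h.κpos
  refine ⟨2 * κ + B + 1, max (max (C + 1) 9)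
    (max (16 * C) (Real.exp (3 * C + Real.log (2 * C * 2 ^ B)))), by positivity, ?_⟩
  intro t ht w h1 h2
  have ht1 : C + 1 ≤ t := ((le_max_left _ _).trans (le_max_left _ _)).trans ht
  have ht9 : 9 ≤ t := ((le_max_right _ _).trans (le_max_left _ _)).trans ht
  have ht16 : 16 * C ≤ t := ((le_max_left _ _).trans (le_max_right _ _)).trans ht
  have htD : 3 * C + Real.log (2 * C * 2 ^ B) ≤ Real.log t :=
    (Real.le_log_iff_exp_le (by linarith)).2
      (((le_max_right _ _).trans (le_max_right _ _)).trans ht)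
  rcases le_total w.im 0 with h3 | h3
  · exact low h ht1 ht9 ht16 htD h1 h2 h3
  · have h4 := low h ht1 ht9 ht16 htD (w := (starRingEnd ℂ) w) (by rw [conj_re]; exact h1)
      (by rw [conj_im, abs_neg]; exact h2) (by rw [conj_im]; linarith)
    rwa [h.conj, Complex.norm_conj] at h4

theorem S_CRX_proof : Pool.Agent.H477.S.S_CRX := crx loc_R

end Pool.Agent.H571.N
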